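import Mathlib

namespace Pool.Agent.Results.MP_3dda3d_al.NotIso

/-- formal `Ω`-monomials in the variables `x_0, x_1, …` -/
inductive Mono (Ω : ℕ → Type) : Type
  | var : ℕ → Mono Ω
  | app : (n : ℕ) → Ω n → (Fin n → Mono Ω) → Mono Ω

/-- an `Ω`-algebra structure on the `k`-module `A` -/
def Ops (k : Type) [CommRing k] (Ω : ℕ → Type) (A : Type) [AddCommGroup A] [Module k A] : Type :=
  (n : ℕ) → Ω n → MultilinearMap k (fun _ : Fin n => A) A

variable {k : Type} [CommRing k] {Ω : ℕ → Type} {A B : Type} [AddCommGroup A] [Module k A]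
  [AddCommGroup B] [Module k B]

/-- value of a monomial under a substitution -/
def evM (P : Ops k Ω A) (a : ℕ → A) : Mono Ω → A
  | .var i => a i
  | .app n ω w => P n ω fun j => evM P a (w j)

/-- value of an element of the free `Ω`-algebra under a substitution -/
noncomputable def ev (P : Ops k Ω A) (a : ℕ → A) (f : Mono Ω →₀ k) : A :=
  f.sum fun w c => c • evM P a w

def IsIdentity (P : Ops k Ω A) (f : Mono Ω →₀ k) : Prop := ∀ a, ev P a f = 0

def IsSubalg (P : Ops k Ω A) (R : Submodule k A) : Prop :=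
  ∀ n ω (a : Fin n → A), (∀ j, a j ∈ R) → P n ω a ∈ R

/-- `I` is an ideal of the subalgebra `R` -/
def IsIdealOf (P : Ops k Ω A) (I R : Submodule k A) : Prop :=
  I ≤ R ∧ ∀ n ω (a : Fin n → A), (∀ j, a j ∈ R) → (∃ j, a j ∈ I) → P n ω a ∈ I

/-- some common identity of all proper sections `R / I` fails in the algebra -/
def IsCritical (P : Ops k Ω A) : Prop :=
  ¬ ∀ f : Mono Ω →₀ k, (∀ R I : Submodule k A, IsSubalg P R → IsIdealOf P I R →
    ¬ (R = ⊤ ∧ I = ⊥) → ∀ a : ℕ → A, (∀ i, a i ∈ R) → ev P a f ∈ I) → IsIdentity P f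

def IsIso (P : Ops k Ω A) (Q : Ops k Ω B) : Prop :=
  ∃ φ : A ≃ₗ[k] B, ∀ n ω (a : Fin n → A), φ (P n ω a) = Q n ω fun j => φ (a j)

/-- forget the operations outside the subsignature `S` -/
def reduct (S : ∀ n, Set (Ω n)) (P : Ops k Ω A) : Ops k (fun n => S n) A := fun n ω => P n ω.1

def Sig : ℕ → Type := fun n => PLift (n = 1 ∨ n = 3)

noncomputable def tern : MultilinearMap ℝ (fun _ : Fin 3 => ℝ × ℝ) (ℝ × ℝ) where
  toFun v := ((v 0).1 * (v 1).1 * (v 2).2, (v 0).2 * (v 1).2 * (v 2).1)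
  map_update_add' := by
    intro inst v i x y
    obtain rfl : inst = instDecidableEqFin _ := Subsingleton.elim _ _
    fin_cases i <;> simp <;> constructor <;> ring
  map_update_smul' := by
    intro inst v i c x
    obtain rfl : inst = instDecidableEqFin _ := Subsingleton.elim _ _
    fin_cases i <;> simp <;> constructor <;> ring

noncomputable def un (t : ℝ) : MultilinearMap ℝ (fun _ : Fin 1 => ℝ × ℝ) (ℝ × ℝ) where
  toFun v := (0, t * (v 0).1)
  map_update_add' v i x y := by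
    fin_cases i; simp; ring
  map_update_smul' v i c x := by
    fin_cases i; simp; ring

noncomputable def Bt (t : ℝ) : Ops ℝ Sig (ℝ × ℝ)
  | 1, _ => un t
  | 3, _ => tern
  | 0, _ => 0
  | 2, _ => 0
  | (_ + 4), _ => 0


lemma anal (a : ℕ → ℝ × ℝ) (e : ℝ) (w : Mono Sig) (x : ℝ) :
    AnalyticAt ℝ (fun t => evM (Bt (e * t)) a w) x := by
  induction w with
  | var i => exact analyticAt_const
  | app n ω w ih =>
    obtain ⟨h | h⟩ := ω
    · subst h
      have := analyticAt_fst.comp (ih 0)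
      simp only [evM, Bt, un, MultilinearMap.coe_mk]
      exact analyticAt_const.prod ((analyticAt_const.mul analyticAt_id).mul this)
    · subst h
      have h0 := ih 0; have h1 := ih 1; have h2 := ih 2
      simp only [evM, Bt, tern, MultilinearMap.coe_mk]
      exact (((analyticAt_fst.comp h0).mul (analyticAt_fst.comp h1)).mul
        (analyticAt_snd.comp h2)).prod (((analyticAt_snd.comp h0).mul
        (analyticAt_snd.comp h1)).mul (analyticAt_fst.comp h2))

noncomputable def sc (s : ℝ) (v : ℝ × ℝ) : ℝ × ℝ := (s * v.1, s⁻¹ * v.2)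

lemma scale (e s : ℝ) (hs : s ≠ 0) (a : ℕ → ℝ × ℝ) (w : Mono Sig) :
    evM (Bt e) (fun i => sc s (a i)) w = sc s (evM (Bt (e * s ^ 2)) a w) := by
  induction w with
  | var i => rfl
  | app n ω w ih =>
    obtain ⟨h | h⟩ := ω
    · subst h
      simp only [evM, ih]
      simp only [Bt, un, MultilinearMap.coe_mk, sc, Prod.mk.injEq]
      constructor
      · simp
      · field_simp
    · subst h
      simp only [evM, ih]
      simp only [Bt, tern, MultilinearMap.coe_mk, sc, Prod.mk.injEq]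
      constructor <;> field_simp

lemma ident (e : ℝ) (f : Mono Sig →₀ ℝ) (hf : IsIdentity (Bt e) f) :
    IsIdentity (Bt (e * -1)) f := by
  intro a
  have hc : AnalyticOnNhd ℝ (fun t : ℝ => ev (Bt (e * t)) a f) Set.univ := by
    intro x _
    unfold ev Finsupp.sum
    exact Finset.analyticAt_fun_sum _ fun w _ =>
      (analyticAt_const (v := f w)).smul (anal a e w x)
  have h0 : (fun t : ℝ => ev (Bt (e * t)) a f) =ᶠ[nhds 1] fun _ => 0 := by
    filter_upwards [Ioi_mem_nhds (zero_lt_one' ℝ)] with t ht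
    have ht' : (0 : ℝ) < t := ht
    obtain ⟨s, hs', rfl⟩ : ∃ s : ℝ, s ≠ 0 ∧ t = s ^ 2 :=
      ⟨√t, (Real.sqrt_pos.2 ht').ne', (Real.sq_sqrt ht'.le).symm⟩
    have := hf fun i => sc s (a i)
    simp only [ev, scale e s hs'] at this
    simp only [ev, Finsupp.sum, sc, Prod.ext_iff, Prod.fst_sum, Prod.snd_sum,
      Prod.smul_fst, Prod.smul_snd, smul_eq_mul, Prod.fst_zero, Prod.snd_zero] at this ⊢
    obtain ⟨h1, h2⟩ := this
    constructor
    · apply mul_left_cancel₀ hs'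
      rw [mul_zero, ← h1, Finset.mul_sum]
      exact Finset.sum_congr rfl fun _ _ => by ring
    · apply mul_left_cancel₀ (inv_ne_zero hs')
      rw [mul_zero, ← h2, Finset.mul_sum]
      exact Finset.sum_congr rfl fun _ _ => by ring
  exact congrFun (hc.eq_of_eventuallyEq (fun _ _ => analyticAt_const) h0) (-1)

def S3 : ∀ n, Set (Sig n) := fun n => {_ω | n = 3}

def w3 : S3 3 := ⟨⟨Or.inr rfl⟩, rfl⟩

lemma red_eq (t u : ℝ) : reduct S3 (Bt t) = reduct S3 (Bt u) := by
  funext n ω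
  obtain ⟨ω, h⟩ := ω
  obtain rfl : n = 3 := h
  rfl

lemma crit (t : ℝ) : IsCritical (reduct S3 (Bt t)) := by
  intro h
  let f : Mono (fun n => S3 n) →₀ ℝ := Finsupp.single (.app 3 w3 ![.var 0, .var 1, .var 2]) 1 -
    Finsupp.single (.app 3 w3 ![.var 2, .var 1, .var 0]) 1
  have hf : ∀ a, ev (reduct S3 (Bt t)) a f = tern ![a 0, a 1, a 2] - tern ![a 2, a 1, a 0] := by
    intro a
    unfold ev
    rw [Finsupp.sum_sub_index (fun _ _ _ => sub_smul _ _ _)]
    simp [evM, reduct, Bt, tern]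
  have := h f ?_ fun i => if i = 2 then (0, 1) else (1, 0)
  · rw [hf] at this
    simp [tern] at this
  intro R I _ hI hp a ha
  rw [hf]
  by_cases hR : R = ⊤
  · subst hR
    have hI0 : I ≠ ⊥ := fun h => hp ⟨rfl, h⟩
    obtain ⟨v, hv, hv0⟩ := (Submodule.ne_bot_iff I).1 hI0
    have k1 : ∀ v ∈ I, v.2 ≠ 0 → ((1, 0) : ℝ × ℝ) ∈ I := fun v hv h2 => by
      have := hI.2 3 w3 ![(v.2⁻¹, 0), (1, 0), v] (fun _ => trivial) ⟨2, hv⟩
      simpa [reduct, Bt, tern, h2] using this
    have k2 : ∀ v ∈ I, v.1 ≠ 0 → ((0, 1) : ℝ × ℝ) ∈ I := fun v hv h2 => by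
      have := hI.2 3 w3 ![(0, v.1⁻¹), (0, 1), v] (fun _ => trivial) ⟨2, hv⟩
      simpa [reduct, Bt, tern, h2] using this
    have : ((1, 0) : ℝ × ℝ) ∈ I ∧ ((0, 1) : ℝ × ℝ) ∈ I := by
      by_cases h1 : v.1 = 0
      · have h2 : v.2 ≠ 0 := fun h2 => hv0 (Prod.ext h1 h2)
        exact ⟨k1 v hv h2, k2 _ (k1 v hv h2) (by simp)⟩
      · exact ⟨k1 _ (k2 v hv h1) (by simp), k2 v hv h1⟩
    have all : ∀ x : ℝ × ℝ, x ∈ I := fun x => by
      simpa using I.add_mem (I.smul_mem x.1 this.1) (I.smul_mem x.2 this.2)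
    exact all _
  · have hd : (a 0).1 * (a 2).2 = (a 2).1 * (a 0).2 := by
      by_contra hd
      have hd' : (a 0).1 * (a 2).2 - (a 2).1 * (a 0).2 ≠ 0 := sub_ne_zero.2 hd
      apply hR
      rw [eq_top_iff]
      intro x _
      have := R.add_mem
        (R.smul_mem ((x.1 * (a 2).2 - (a 2).1 * x.2) / ((a 0).1 * (a 2).2 - (a 2).1 * (a 0).2)) (ha 0))
        (R.smul_mem (((a 0).1 * x.2 - x.1 * (a 0).2) / ((a 0).1 * (a 2).2 - (a 2).1 * (a 0).2)) (ha 2))
      convert this using 1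
      ext
      · simp only [Prod.fst_add, Prod.smul_fst, smul_eq_mul]
        rw [div_mul_eq_mul_div, div_mul_eq_mul_div, ← add_div, eq_div_iff hd']; ring
      · simp only [Prod.snd_add, Prod.smul_snd, smul_eq_mul]
        rw [div_mul_eq_mul_div, div_mul_eq_mul_div, ← add_div, eq_div_iff hd']; ring
    convert I.zero_mem using 1
    ext
    · simp [tern]; linear_combination (a 1).1 * hd
    · simp [tern]; linear_combination (-(a 1).2) * hd

theorem result : ∃ (Ω' : ℕ → Type) (Ω : ∀ n, Set (Ω' n)) (A B : Type) (_ : AddCommGroup A)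
    (_ : Module ℝ A) (_ : AddCommGroup B) (_ : Module ℝ B) (P : Ops ℝ Ω' A) (Q : Ops ℝ Ω' B),
    (∃ n, 2 ≤ n ∧ (Ω n).Nonempty) ∧ IsIso (reduct Ω P) (reduct Ω Q) ∧
    IsCritical (reduct Ω P) ∧ IsCritical (reduct Ω Q) ∧
    (∀ f, IsIdentity P f ↔ IsIdentity Q f) ∧ ¬ IsIso P Q := by
  refine ⟨Sig, S3, ℝ × ℝ, ℝ × ℝ, inferInstance, inferInstance, inferInstance, inferInstance,
    Bt 1, Bt (-1), ⟨3, by norm_num, ⟨w3.1, w3.2⟩⟩, ⟨LinearEquiv.refl _ _, ?_⟩, crit _, crit _,
    fun f => ⟨fun h => by simpa using ident 1 f h, fun h => by simpa using ident (-1) f h⟩, ?_⟩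
  · intro n ω a
    rw [red_eq 1 (-1)]
    rfl
  · rintro ⟨φ, hφ⟩
    have h1 := hφ 1 ⟨Or.inl rfl⟩ fun _ => (1, 0)
    have h3 := hφ 3 ⟨Or.inr rfl⟩ ![(1, 0), (1, 0), (0, 1)]
    simp [Bt, un, tern, Prod.ext_iff] at h1 h3
    obtain ⟨p1, p2⟩ := h1
    obtain ⟨q1, q2⟩ := h3
    rw [p1] at q2
    rw [p2] at q1
    have hx : (φ (1, 0)).1 = 0 := by
      by_contra hx
      have : (φ (1, 0)).1 * (1 + (φ (1, 0)).1 ^ 2) = 0 := by linear_combination q1
      rcases mul_eq_zero.1 this with h | h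
      · exact hx h
      · nlinarith [sq_nonneg (φ (1, 0)).1]
    have : φ (1, 0) = φ 0 := by
      rw [map_zero]; ext
      · exact hx
      · simpa using q2
    simpa using φ.injective this

end Pool.Agent.Results.MP_3dda3d_al.NotIso
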